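import Mathlib

/-! Planar degree lemma by signed crossings on a grid (helper55): there is no locally hemispherical
field on the plane that points to the origin outside a large square. -/

namespace Pool.Agent.H55.DG

/-- signed crossing of the segment `a b` with the positive `x`-axis -/
noncomputable def cr (a b : ℝ × ℝ) : ℤ :=
  if a.2 < 0 ∧ 0 ≤ b.2 ∧ 0 < a.1 * b.2 - a.2 * b.1 then 1
  else if 0 ≤ a.2 ∧ b.2 < 0 ∧ a.1 * b.2 - a.2 * b.1 < 0 then -1 else 0

noncomputable def phi (n v : ℝ × ℝ) : ℤ := if 0 < n.1 ∧ 0 ≤ v.2 then 1 else 0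

theorem cr_eq {n a b : ℝ × ℝ} (ha : 0 < n.1 * a.1 + n.2 * a.2) (hb : 0 < n.1 * b.1 + n.2 * b.2) :
    cr a b = phi n b - phi n a := by
  have key : n.1 * (a.1 * b.2 - a.2 * b.1)
      = (n.1 * a.1 + n.2 * a.2) * b.2 - a.2 * (n.1 * b.1 + n.2 * b.2) := by ring
  have key1 : a.2 < 0 → 0 ≤ b.2 → 0 < n.1 * (a.1 * b.2 - a.2 * b.1) := by
    intro h1 h2
    rw [key]
    have := mul_nonneg ha.le h2
    have := mul_pos (neg_pos.mpr h1) hb
    nlinarith
  have key2 : 0 ≤ a.2 → b.2 < 0 → n.1 * (a.1 * b.2 - a.2 * b.1) < 0 := by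
    intro h1 h2
    rw [key]
    have := mul_nonneg h1 hb.le
    have := mul_pos ha (neg_pos.mpr h2)
    nlinarith
  unfold cr phi
  rcases lt_or_ge a.2 0 with h1 | h1 <;> rcases lt_or_ge b.2 0 with h2 | h2
  · have h3 : ¬ (0 ≤ b.2) := not_le.mpr h2
    have h4 : ¬ (0 ≤ a.2) := not_le.mpr h1
    simp [h3, h4]
  · have h3 := key1 h1 h2
    have h4 : ¬ (0 ≤ a.2) := not_le.mpr h1
    have h5 : ¬ (b.2 < 0) := not_lt.mpr h2
    by_cases hn : 0 < n.1
    · have h6 : 0 < a.1 * b.2 - a.2 * b.1 := by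
        by_contra hc
        have := mul_nonneg hn.le (neg_nonneg.mpr (not_lt.mp hc))
        linarith
      simp [h1, h2, h4, h6, hn]
    · have h6 : ¬ 0 < a.1 * b.2 - a.2 * b.1 := by
        intro hc
        have := mul_nonneg (neg_nonneg.mpr (not_lt.mp hn)) hc.le
        linarith
      have h7 : ¬ (a.2 < 0 ∧ 0 ≤ b.2 ∧ 0 < a.1 * b.2 - a.2 * b.1) := fun h => h6 h.2.2
      have h8 : ¬ (0 ≤ a.2 ∧ b.2 < 0 ∧ a.1 * b.2 - a.2 * b.1 < 0) := fun h => h4 h.1
      rw [if_neg h7, if_neg h8]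
      simp [hn]
  · have h3 := key2 h1 h2
    have h4 : ¬ (a.2 < 0) := not_lt.mpr h1
    have h5 : ¬ (0 ≤ b.2) := not_le.mpr h2
    by_cases hn : 0 < n.1
    · have h6 : a.1 * b.2 - a.2 * b.1 < 0 := by
        by_contra hc
        have := mul_nonneg hn.le (not_lt.mp hc)
        linarith
      have h7 : ¬ (a.2 < 0 ∧ 0 ≤ b.2 ∧ 0 < a.1 * b.2 - a.2 * b.1) := fun h => h4 h.1
      rw [if_neg h7, if_pos ⟨h1, h2, h6⟩]
      simp [h1, h5, hn]
    · have h6 : ¬ a.1 * b.2 - a.2 * b.1 < 0 := by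
        intro hc
        have := mul_nonneg (neg_nonneg.mpr (not_lt.mp hn)) (neg_nonneg.mpr hc.le)
        linarith
      have h7 : ¬ (a.2 < 0 ∧ 0 ≤ b.2 ∧ 0 < a.1 * b.2 - a.2 * b.1) := fun h => h4 h.1
      have h8 : ¬ (0 ≤ a.2 ∧ b.2 < 0 ∧ a.1 * b.2 - a.2 * b.1 < 0) := fun h => h6 h.2.2
      rw [if_neg h7, if_neg h8]
      simp [hn]
  · have h3 : ¬ (a.2 < 0) := not_lt.mpr h1
    have h4 : ¬ (b.2 < 0) := not_lt.mpr h2
    simp [h3, h4, h1, h2]

/-- A unit square of the grid with a common half plane contributes `0`. -/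
theorem square {n a b c d : ℝ × ℝ} (ha : 0 < n.1 * a.1 + n.2 * a.2) (hb : 0 < n.1 * b.1 + n.2 * b.2)
    (hc : 0 < n.1 * c.1 + n.2 * c.2) (hd : 0 < n.1 * d.1 + n.2 * d.2) :
    cr a b + cr b c - cr d c - cr a d = 0 := by
  rw [cr_eq ha hb, cr_eq hb hc, cr_eq hd hc, cr_eq ha hd]; ring

/-- Discrete Stokes. -/
theorem stokes (M : ℕ) (H V : ℕ → ℕ → ℤ)
    (h : ∀ i < M, ∀ j < M, H i j + V (i + 1) j - H i (j + 1) - V i j = 0) :
    (∑ i ∈ Finset.range M, H i 0) - (∑ i ∈ Finset.range M, H i M)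
      + (∑ j ∈ Finset.range M, V M j) - (∑ j ∈ Finset.range M, V 0 j) = 0 := by
  have h1 : ∑ i ∈ Finset.range M, ∑ j ∈ Finset.range M,
      ((H i j - H i (j + 1)) + (V (i + 1) j - V i j)) = 0 := by
    apply Finset.sum_eq_zero; intro i hi
    apply Finset.sum_eq_zero; intro j hj
    have := h i (Finset.mem_range.mp hi) j (Finset.mem_range.mp hj)
    linarith
  have h2 : ∑ i ∈ Finset.range M, ∑ j ∈ Finset.range M, (H i j - H i (j + 1))
      = (∑ i ∈ Finset.range M, H i 0) - (∑ i ∈ Finset.range M, H i M) := by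
    rw [← Finset.sum_sub_distrib]
    apply Finset.sum_congr rfl; intro i _
    have := Finset.sum_range_sub' (fun j => H i j) M
    simpa using this
  have h3 : ∑ i ∈ Finset.range M, ∑ j ∈ Finset.range M, (V (i + 1) j - V i j)
      = (∑ j ∈ Finset.range M, V M j) - (∑ j ∈ Finset.range M, V 0 j) := by
    rw [Finset.sum_comm, ← Finset.sum_sub_distrib]
    apply Finset.sum_congr rfl; intro j _
    have := Finset.sum_range_sub (fun i => V i j) M
    simpa using this
  have h4 : ∑ i ∈ Finset.range M, ∑ j ∈ Finset.range M,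
      ((H i j - H i (j + 1)) + (V (i + 1) j - V i j))
      = (∑ i ∈ Finset.range M, ∑ j ∈ Finset.range M, (H i j - H i (j + 1)))
        + ∑ i ∈ Finset.range M, ∑ j ∈ Finset.range M, (V (i + 1) j - V i j) := by
    rw [← Finset.sum_add_distrib]
    apply Finset.sum_congr rfl; intro i _
    rw [← Finset.sum_add_distrib]
  rw [h4, h2, h3] at h1
  linarith

/-- **Degree lemma.** No set-valued field on the plane is locally contained in open half planes, has
nonempty values on a dense set and contains `-x` for all large `x`. -/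
theorem no_field (Φ : ℝ × ℝ → Set (ℝ × ℝ)) (R : ℝ) (hne : Dense {x | (Φ x).Nonempty})
    (hloc : ∀ x, ∃ ε > 0, ∃ n : ℝ × ℝ, ∀ x' ∈ Metric.ball x ε, ∀ v ∈ Φ x',
      0 < n.1 * v.1 + n.2 * v.2)
    (hinf : ∀ x, R ≤ ‖x‖ → -x ∈ Φ x) : False := by
  set S : ℝ := max R 1 with hS
  have hS1 : 1 ≤ S := le_max_right _ _
  have hSR : R ≤ S := le_max_left _ _
  have hS0 : 0 < S := lt_of_lt_of_le one_pos hS1
  choose ε hε n hn using hloc
  have hK : IsCompact (Metric.closedBall (0 : ℝ × ℝ) S) := isCompact_closedBall _ _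
  obtain ⟨δ, hδ, hleb⟩ := lebesgue_number_lemma_of_metric hK
    (c := fun x : ℝ × ℝ => Metric.ball x (ε x)) (fun x => Metric.isOpen_ball)
    (fun x _ => Set.mem_iUnion.mpr ⟨x, Metric.mem_ball_self (hε x)⟩)
  -- number of grid steps
  obtain ⟨M, hM⟩ := exists_nat_gt (8 * S / δ)
  have hM0 : (0 : ℝ) < M := lt_trans (by positivity) hM
  have hMpos : 0 < M := by exact_mod_cast hM0
  set d : ℝ := 2 * S / M with hd
  have hd0 : 0 < d := by positivity
  have hdδ : 4 * d < δ := by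
    rw [hd]
    rw [div_lt_iff₀ hδ] at hM
    rw [show 4 * (2 * S / (M : ℝ)) = 8 * S / M by ring, div_lt_iff₀ hM0]
    linarith
  have hMd : (M : ℝ) * d = 2 * S := by rw [hd]; field_simp
  -- grid points
  let p : ℕ → ℕ → ℝ × ℝ := fun i j => (-S + i * d, -S + j * d)
  have hsel : ∀ i j : ℕ, ∃ q : ℝ × ℝ, ∃ v ∈ Φ q, dist q (p i j) < d ∧
      ((i = 0 ∨ i = M ∨ j = 0 ∨ j = M) → v = -(p i j)) := by
    intro i j
    by_cases hb : i = 0 ∨ i = M ∨ j = 0 ∨ j = M
    · refine ⟨p i j, -(p i j), hinf _ ?_, by simpa using hd0, fun _ => rfl⟩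
      refine le_trans hSR ?_
      have h1 : |(p i j).1| ≤ ‖p i j‖ := by rw [← Real.norm_eq_abs]; exact norm_fst_le (p i j)
      have h2 : |(p i j).2| ≤ ‖p i j‖ := by rw [← Real.norm_eq_abs]; exact norm_snd_le (p i j)
      rcases hb with h | h | h | h
      · have : (p i j).1 = -S := by simp [p, h]
        rw [this, abs_neg, abs_of_pos hS0] at h1; exact h1
      · have : (p i j).1 = S := by simp [p, h, hMd]; ring
        rw [this, abs_of_pos hS0] at h1; exact h1
      · have : (p i j).2 = -S := by simp [p, h]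
        rw [this, abs_neg, abs_of_pos hS0] at h2; exact h2
      · have : (p i j).2 = S := by simp [p, h, hMd]; ring
        rw [this, abs_of_pos hS0] at h2; exact h2
    · obtain ⟨q, hq, hq2⟩ := Metric.dense_iff.mp hne (p i j) d hd0
      obtain ⟨v, hv⟩ := hq2
      exact ⟨q, v, hv, hq, fun h => absurd h hb⟩
  choose q v hv hq hvb using hsel
  -- common half plane on every unit square
  have hsq : ∀ i < M, ∀ j < M,
      cr (v i j) (v (i + 1) j) + cr (v (i + 1) j) (v (i + 1) (j + 1))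
        - cr (v i (j + 1)) (v (i + 1) (j + 1)) - cr (v i j) (v i (j + 1)) = 0 := by
    intro i hi j hj
    have hpK : p i j ∈ Metric.closedBall (0 : ℝ × ℝ) S := by
      have h1 : ((i : ℝ)) * d ≤ 2 * S := by
        rw [← hMd]; exact mul_le_mul_of_nonneg_right (by exact_mod_cast hi.le) hd0.le
      have h2 : ((j : ℝ)) * d ≤ 2 * S := by
        rw [← hMd]; exact mul_le_mul_of_nonneg_right (by exact_mod_cast hj.le) hd0.le
      have h3 : 0 ≤ (i : ℝ) * d := by positivity
      have h4 : 0 ≤ (j : ℝ) * d := by positivity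
      rw [mem_closedBall_zero_iff, Prod.norm_def]
      apply max_le <;> rw [Real.norm_eq_abs, abs_le] <;> constructor <;> simp only [p] <;> linarith
    obtain ⟨y, hy⟩ := hleb _ hpK
    have hclose : ∀ a b : ℕ, (a = i ∨ a = i + 1) → (b = j ∨ b = j + 1) →
        0 < (n y).1 * (v a b).1 + (n y).2 * (v a b).2 := by
      intro a b ha hb
      apply hn y (q a b) _ _ (hv a b)
      apply hy
      rw [Metric.mem_ball]
      have h1 : dist (p a b) (p i j) ≤ d := by
        rw [Prod.dist_eq]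
        apply max_le
        · rw [Real.dist_eq]
          rcases ha with h | h <;> subst h <;> simp only [p] <;> push_cast
          · simp [hd0.le]
          · rw [show (-S + ((i : ℝ) + 1) * d - (-S + i * d)) = d by ring, abs_of_pos hd0]
        · rw [Real.dist_eq]
          rcases hb with h | h <;> subst h <;> simp only [p] <;> push_cast
          · simp [hd0.le]
          · rw [show (-S + ((j : ℝ) + 1) * d - (-S + j * d)) = d by ring, abs_of_pos hd0]
      calc dist (q a b) (p i j) ≤ dist (q a b) (p a b) + dist (p a b) (p i j) := dist_triangle _ _ _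
        _ < d + d := add_lt_add_of_lt_of_le (hq a b) h1
        _ < δ := by linarith
    exact square (hclose i j (Or.inl rfl) (Or.inl rfl)) (hclose (i+1) j (Or.inr rfl) (Or.inl rfl))
      (hclose (i+1) (j+1) (Or.inr rfl) (Or.inr rfl)) (hclose i (j+1) (Or.inl rfl) (Or.inr rfl))
  have hst := stokes M (fun i j => cr (v i j) (v (i + 1) j)) (fun i j => cr (v i j) (v i (j + 1)))
    (fun i hi j hj => hsq i hi j hj)
  -- the four sides
  have hb0 : ∀ i, v i 0 = -(p i 0) := fun i => hvb i 0 (by simp)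
  have hbM : ∀ i, v i M = -(p i M) := fun i => hvb i M (by simp)
  have hl0 : ∀ j, v 0 j = -(p 0 j) := fun j => hvb 0 j (by simp)
  have hlM : ∀ j, v M j = -(p M j) := fun j => hvb M j (by simp)
  have s1 : ∀ i, cr (v i 0) (v (i + 1) 0) = 0 := by
    intro i
    rw [cr_eq (n := (0, 1)) (by rw [hb0]; simp [p, hS0]) (by rw [hb0]; simp [p, hS0])]
    simp [phi]
  have s2 : ∀ i, cr (v i M) (v (i + 1) M) = 0 := by
    intro i
    rw [cr_eq (n := (0, -1)) (by rw [hbM]; simp [p, hMd]; linarith)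
      (by rw [hbM]; simp [p, hMd]; linarith)]
    simp [phi]
  have s3 : ∀ j, cr (v M j) (v M (j + 1)) = 0 := by
    intro j
    rw [cr_eq (n := (-1, 0)) (by rw [hlM]; simp [p, hMd]; linarith)
      (by rw [hlM]; simp [p, hMd]; linarith)]
    norm_num [phi]
  have s4 : ∀ j, cr (v 0 j) (v 0 (j + 1)) = phi (1, 0) (v 0 (j + 1)) - phi (1, 0) (v 0 j) := by
    intro j
    exact cr_eq (n := (1, 0)) (by rw [hl0]; simp [p, hS0]) (by rw [hl0]; simp [p, hS0])
  have s5 : ∑ j ∈ Finset.range M, cr (v 0 j) (v 0 (j + 1)) = -1 := by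
    rw [Finset.sum_congr rfl (fun j _ => s4 j), Finset.sum_range_sub (fun j => phi (1, 0) (v 0 j))]
    rw [hl0, hl0]
    simp only [phi, p]
    have e1 : ¬ (0 ≤ (-( -S + ((0:ℕ):ℝ) * d, -S + (M:ℝ) * d) : ℝ × ℝ).2) := by
      simp [hMd]; linarith
    have e2 : (0 ≤ (-( -S + ((0:ℕ):ℝ) * d, -S + ((0:ℕ):ℝ) * d) : ℝ × ℝ).2) := by
      simp; linarith
    rw [if_neg (fun h => e1 h.2), if_pos ⟨one_pos, e2⟩]
    rfl
  simp only [s1, s2, s3, Finset.sum_const_zero] at hst
  rw [s5] at hst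
  norm_num at hst

/-- Continuous version: a continuous planar field pointing inward outside a large square vanishes
somewhere. -/
theorem exists_zero (V : ℝ × ℝ → ℝ × ℝ) (hV : Continuous V) (R : ℝ)
    (hinf : ∀ x, R ≤ ‖x‖ → (V x).1 * x.1 + (V x).2 * x.2 < 0) : ∃ x, V x = 0 := by
  by_contra hne
  have hne' : ∀ x, V x ≠ 0 := fun x h => hne ⟨x, h⟩
  have hsq : ∀ v : ℝ × ℝ, v ≠ 0 → 0 < v.1 * v.1 + v.2 * v.2 := by
    intro v hv
    rcases lt_or_eq_of_le (add_nonneg (mul_self_nonneg v.1) (mul_self_nonneg v.2)) with h | h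
    · exact h
    · exfalso; apply hv
      have h1 : v.1 * v.1 = 0 := by nlinarith [mul_self_nonneg v.1, mul_self_nonneg v.2]
      have h2 : v.2 * v.2 = 0 := by nlinarith [mul_self_nonneg v.1, mul_self_nonneg v.2]
      exact Prod.ext (mul_self_eq_zero.mp h1) (mul_self_eq_zero.mp h2)
  refine no_field (fun x => {v | v = V x ∨ (max R 1 ≤ ‖x‖ ∧ v = -x)}) (max R 1) ?_ ?_ ?_
  · have : {x : ℝ × ℝ | ({v | v = V x ∨ (max R 1 ≤ ‖x‖ ∧ v = -x)} : Set (ℝ × ℝ)).Nonempty}
        = Set.univ := Set.eq_univ_of_forall (fun x => ⟨V x, Or.inl rfl⟩)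
    rw [this]; exact dense_univ
  · intro x
    -- the continuous functions `x' ↦ n · V x'` and `x' ↦ - n · x'`
    have key : ∃ n : ℝ × ℝ, 0 < n.1 * (V x).1 + n.2 * (V x).2 ∧
        (max R 1 ≤ ‖x‖ → 0 < n.1 * (-x.1) + n.2 * (-x.2)) := by
      by_cases hx : max R 1 ≤ ‖x‖
      · have hx0 : x ≠ 0 := by
          rintro rfl
          rw [norm_zero] at hx
          linarith [le_max_right R 1]
        set P := (V x).1 * (V x).1 + (V x).2 * (V x).2 with hP
        set Q := x.1 * x.1 + x.2 * x.2 with hQ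
        have hP0 : 0 < P := hsq _ (hne' x)
        have hQ0 : 0 < Q := hsq _ hx0
        have hd := hinf x (le_trans (le_max_left _ _) hx)
        set d := (V x).1 * x.1 + (V x).2 * x.2 with hdd
        -- n = -d * (V x) ... choose n = s V - t x with  s P + t (-d) > 0, s(-d) + t Q > 0
        refine ⟨(V x - x), ?_, fun _ => ?_⟩
        · simp only [Prod.fst_sub, Prod.snd_sub]
          nlinarith
        · simp only [Prod.fst_sub, Prod.snd_sub]
          nlinarith
      · exact ⟨V x, hsq _ (hne' x), fun h => absurd h hx⟩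
    obtain ⟨n, hn1, hn2⟩ := key
    have hc1 : Continuous fun x' : ℝ × ℝ => n.1 * (V x').1 + n.2 * (V x').2 := by fun_prop
    have hc2 : Continuous fun x' : ℝ × ℝ => n.1 * (-x'.1) + n.2 * (-x'.2) := by fun_prop
    have e1 : ∀ᶠ x' in nhds x, 0 < n.1 * (V x').1 + n.2 * (V x').2 :=
      hc1.continuousAt.eventually (lt_mem_nhds hn1)
    have e2 : ∀ᶠ x' in nhds x, max R 1 ≤ ‖x'‖ → 0 < n.1 * (-x'.1) + n.2 * (-x'.2) := by
      by_cases hx : max R 1 ≤ ‖x‖
      · filter_upwards [hc2.continuousAt.eventually (lt_mem_nhds (hn2 hx))] with x' h _ using h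
      · have : ∀ᶠ x' in nhds x, ‖x'‖ < max R 1 :=
          continuous_norm.continuousAt.eventually (gt_mem_nhds (not_le.mp hx))
        filter_upwards [this] with x' h h2
        exact absurd h2 (not_le.mpr h)
    obtain ⟨ε, hε, hball⟩ := Metric.eventually_nhds_iff_ball.mp (e1.and e2)
    refine ⟨ε, hε, n, fun x' hx' v hv => ?_⟩
    obtain ⟨h1, h2⟩ := hball x' hx'
    rcases hv with rfl | ⟨h3, rfl⟩
    · exact h1
    · simpa using h2 h3
  · intro x hx
    exact Or.inr ⟨hx, rfl⟩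

end Pool.Agent.H55.DG
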